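import Mathlib

/-!
# T1, core R5, part 1: functionals on forms in three variables (helper65)

`k ⊆ Ω` fields, `x : Fin 3 → Ω` with `k`-linearly independent coordinates.
-/

namespace LangT1

open MvPolynomial

variable {k Ω : Type*} [Field k] [Field Ω] [Algebra k Ω]

/-- the linear form with coefficient vector `m` -/
noncomputable def lin (m : Fin 3 → k) : MvPolynomial (Fin 3) k := ∑ i, C (m i) * X i

theorem lin_homogeneous (m : Fin 3 → k) : (lin m).IsHomogeneous 1 := by
  unfold lin
  apply IsHomogeneous.sum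
  intro i _
  simpa using (isHomogeneous_C (Fin 3) (m i)).mul (isHomogeneous_X k i)

theorem lin_mul_homogeneous (m : Fin 3 → k) {n : ℕ} {B : MvPolynomial (Fin 3) k}
    (hB : B.IsHomogeneous n) : (lin m * B).IsHomogeneous (n + 1) := by
  rw [add_comm]; exact (lin_homogeneous m).mul hB

theorem eval_lin (p m : Fin 3 → k) : eval p (lin m) = ∑ i, m i * p i := by
  simp [lin]

theorem lin_add (m m' : Fin 3 → k) : lin (m + m') = lin m + lin m' := by
  simp [lin, add_mul, Finset.sum_add_distrib]

theorem lin_smul (a : k) (m : Fin 3 → k) : lin (a • m) = C a * lin m := by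
  simp [lin, Finset.mul_sum, mul_assoc]

theorem lin_sum {ι : Type*} (s : Finset ι) (m : ι → Fin 3 → k) :
    lin (∑ a ∈ s, m a) = ∑ a ∈ s, lin (m a) := by
  classical
  induction s using Finset.induction_on with
  | empty => simp [lin]
  | insert a s ha ih => rw [Finset.sum_insert ha, Finset.sum_insert ha, lin_add, ih]

theorem lin_zero : lin (0 : Fin 3 → k) = 0 := by simp [lin]

theorem theta_lin_mul (θ : MvPolynomial (Fin 3) k →ₗ[k] k) (m : Fin 3 → k)
    (B : MvPolynomial (Fin 3) k) : θ (lin m * B) = ∑ i, m i * θ (X i * B) := by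
  simp only [lin, Finset.sum_mul, map_sum, mul_assoc]
  refine Finset.sum_congr rfl fun i _ => ?_
  rw [← smul_eq_C_mul, map_smul, smul_eq_mul]

/-- expansion of a vector over `Ω` in `k`-independent coefficients -/
theorem exp_lemma {ι : Type*} [Finite ι] (v : ι → Ω) :
    ∃ (r : ℕ) (e : Fin r → Ω) (w : Fin r → ι → k), LinearIndependent k e ∧
      ∀ i, v i = ∑ a, algebraMap k Ω (w a i) * e a := by
  classical
  have := Fintype.ofFinite ι
  let W : Submodule k Ω := Submodule.span k (Set.range v)
  have hfin : FiniteDimensional k W := FiniteDimensional.span_of_finite k (Set.finite_range v)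
  let b := Module.finBasis k W
  refine ⟨Module.finrank k W, fun a => (b a : Ω), fun a i =>
    b.repr ⟨v i, Submodule.subset_span ⟨i, rfl⟩⟩ a, ?_, ?_⟩
  · exact b.linearIndependent.map' W.subtype (Submodule.ker_subtype W)
  · intro i
    have h := b.sum_repr ⟨v i, Submodule.subset_span ⟨i, rfl⟩⟩
    have h2 := congrArg (W.subtype) h
    rw [map_sum] at h2
    simp only [map_smul, Submodule.subtype_apply, Algebra.smul_def] at h2
    exact h2.symm

/-- every form of positive degree is a sum of `X i * B i` (Euler) -/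
theorem euler [CharZero k] {n : ℕ} {A : MvPolynomial (Fin 3) k} (hA : A.IsHomogeneous (n + 1)) :
    ∃ B : Fin 3 → MvPolynomial (Fin 3) k, (∀ i, (B i).IsHomogeneous n) ∧ A = ∑ i, X i * B i := by
  refine ⟨fun i => C ((n + 1 : k)⁻¹) * pderiv i A, fun i => ?_, ?_⟩
  · have h := (hA.pderiv (i := i))
    simp only [Nat.add_sub_cancel] at h
    simpa using (isHomogeneous_C (Fin 3) ((n + 1 : k)⁻¹)).mul h
  · have h := hA.sum_X_mul_pderiv
    have hn : (n + 1 : k) ≠ 0 := by exact_mod_cast Nat.succ_ne_zero n
    calc A = C ((n + 1 : k)⁻¹) * ((n + 1) • A) := by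
          rw [nsmul_eq_mul, ← mul_assoc]
          have : (C ((n + 1 : k)⁻¹) : MvPolynomial (Fin 3) k) * ((n + 1 : ℕ) : MvPolynomial (Fin 3) k) = 1 := by
            have h1 : ((n + 1 : ℕ) : MvPolynomial (Fin 3) k) = C ((n : k) + 1) := by
              push_cast; simp
            rw [h1, ← C_mul, inv_mul_cancel₀ hn, C_1]
          rw [this, one_mul]
      _ = ∑ i, X i * (C ((n + 1 : k)⁻¹) * pderiv i A) := by
          rw [← h, Finset.mul_sum]
          refine Finset.sum_congr rfl fun i _ => by ring

/-- dual basis of three independent linear forms -/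
theorem dual_basis (m : Fin 3 → Fin 3 → k) (hm : LinearIndependent k m) :
    ∃ p : Fin 3 → Fin 3 → k, (∀ a b, ∑ i, m a i * p b i = if a = b then 1 else 0) ∧
      (∀ i, (X i : MvPolynomial (Fin 3) k) = ∑ a, C (p a i) * lin (m a)) := by
  classical
  let M : Matrix (Fin 3) (Fin 3) k := Matrix.of m
  have hM : IsUnit M := by
    rw [← Matrix.linearIndependent_rows_iff_isUnit]
    exact hm
  have hdet : IsUnit M.det := (Matrix.isUnit_iff_isUnit_det M).1 hM
  refine ⟨fun b i => M⁻¹ i b, ?_, ?_⟩
  · intro a b
    have h := congrFun (congrFun (Matrix.mul_nonsing_inv M hdet) a) b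
    rw [Matrix.mul_apply, Matrix.one_apply] at h
    exact h
  · intro i
    have h : ∀ j, ∑ a, M⁻¹ i a * M a j = if i = j then 1 else 0 := by
      intro j
      have h := congrFun (congrFun (Matrix.nonsing_inv_mul M hdet) i) j
      rw [Matrix.mul_apply, Matrix.one_apply] at h
      exact h
    calc (X i : MvPolynomial (Fin 3) k) = ∑ j, C (if i = j then 1 else 0) * X j := by simp
      _ = ∑ j, C (∑ a, M⁻¹ i a * M a j) * X j := by
          refine Finset.sum_congr rfl fun j _ => by rw [h j]
      _ = ∑ a, C (M⁻¹ i a) * lin (m a) := by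
          simp only [lin, Finset.mul_sum, map_sum, Finset.sum_mul, map_mul]
          rw [Finset.sum_comm]
          refine Finset.sum_congr rfl fun a _ => Finset.sum_congr rfl fun j _ => by
            simp only [M, Matrix.of_apply]; ring

/-- (P1) a functional on forms of degree `n` killed by two independent linear forms is a multiple
of an evaluation -/
theorem pure_power [CharZero k] (m : Fin 3 → Fin 3 → k) (p : Fin 3 → k)
    (P : Fin 3 → Fin 3 → k) (hp : P 2 = p)
    (hX : ∀ i, (X i : MvPolynomial (Fin 3) k) = ∑ a, C (P a i) * lin (m a)) (n : ℕ) :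
    ∀ θ : MvPolynomial (Fin 3) k →ₗ[k] k,
      (∀ n', n' + 1 = n → ∀ B : MvPolynomial (Fin 3) k, B.IsHomogeneous n' →
        θ (lin (m 0) * B) = 0 ∧ θ (lin (m 1) * B) = 0) →
      ∃ c, ∀ A : MvPolynomial (Fin 3) k, A.IsHomogeneous n → θ A = c * eval p A := by
  induction n with
  | zero =>
    intro θ _
    refine ⟨θ 1, fun A hA => ?_⟩
    obtain ⟨a, rfl⟩ : ∃ a, A = C a := by
      rw [← totalDegree_zero_iff_isHomogeneous, totalDegree_eq_zero_iff_eq_C] at hA
      exact ⟨_, hA⟩
    rw [eval_C, mul_comm, ← smul_eq_mul, ← map_smul, smul_eq_C_mul, mul_one]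
  | succ n ih =>
    intro θ hθ
    let θ' : MvPolynomial (Fin 3) k →ₗ[k] k := θ ∘ₗ LinearMap.mulLeft k (lin (m 2))
    obtain ⟨c, hc⟩ := ih θ' (by
      intro n' hn' B hB
      have hB' : (lin (m 2) * B).IsHomogeneous n := by
        rw [← hn']; exact lin_mul_homogeneous _ hB
      have h := hθ n rfl _ hB'
      constructor
      · change θ (lin (m 2) * (lin (m 0) * B)) = 0
        rw [mul_left_comm]; exact h.1
      · change θ (lin (m 2) * (lin (m 1) * B)) = 0
        rw [mul_left_comm]; exact h.2)
    refine ⟨c, fun A hA => ?_⟩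
    obtain ⟨B, hB, rfl⟩ := euler hA
    rw [map_sum, map_sum, Finset.mul_sum]
    refine Finset.sum_congr rfl fun i _ => ?_
    have h := hθ n rfl _ (hB i)
    have h2 : θ (lin (m 2) * B i) = c * eval p (B i) := hc _ (hB i)
    have h3 : θ (X i * B i) = P 2 i * (c * eval p (B i)) := by
      rw [hX i, Fin.sum_univ_three, add_mul, add_mul, map_add, map_add, mul_assoc, mul_assoc,
        mul_assoc, ← smul_eq_C_mul, ← smul_eq_C_mul, ← smul_eq_C_mul, map_smul, map_smul, map_smul,
        h.1, h.2, h2]
      simp only [smul_eq_mul]; ring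
    rw [h3, hp, map_mul, eval_X]
    ring

end LangT1
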