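import Mathlib

/-!
# T1, core R5, part 3: linear spaces of 2 x 2 matrices whose determinant is `k`-rational (helper65)
-/

namespace LangT1

open Matrix

section
variable {k Ω : Type*} [Field k] [Field Ω] [Algebra k Ω]

/-- the subfield `k` of `Ω` -/
abbrev KK (k Ω : Type*) [Field k] [Field Ω] [Algebra k Ω] : Subfield Ω := (algebraMap k Ω).fieldRange

theorem quad_root [IsAlgClosed k] (a b c : k) (ha : a ≠ 0) : ∃ z : k, a * z ^ 2 + b * z + c = 0 := by
  let p : Polynomial k := Polynomial.C a * Polynomial.X ^ 2 + Polynomial.C b * Polynomial.X +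
    Polynomial.C c
  have hdeg : p.degree = 2 := Polynomial.degree_quadratic ha
  obtain ⟨z, hz⟩ := IsAlgClosed.exists_root p (by rw [hdeg]; decide)
  refine ⟨z, ?_⟩
  simpa [p, Polynomial.IsRoot] using hz

theorem quad_mem [IsAlgClosed k] (a b c y : Ω) (ha : a ∈ KK k Ω) (hb : b ∈ KK k Ω)
    (hc : c ∈ KK k Ω) (ha0 : a ≠ 0) (h : a * y ^ 2 + b * y + c = 0) : y ∈ KK k Ω := by
  obtain ⟨a', rfl⟩ := ha
  obtain ⟨b', rfl⟩ := hb
  obtain ⟨c', rfl⟩ := hc
  have ha' : a' ≠ 0 := by rintro rfl; exact ha0 (map_zero _)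
  obtain ⟨z, hz⟩ := quad_root a' b' c' ha'
  have hz' : algebraMap k Ω a' * algebraMap k Ω z ^ 2 + algebraMap k Ω b' * algebraMap k Ω z +
      algebraMap k Ω c' = 0 := by
    rw [← map_pow, ← map_mul, ← map_mul, ← map_add, ← map_add, hz, map_zero]
  have hf : (y - algebraMap k Ω z) * (algebraMap k Ω a' * (y + algebraMap k Ω z) +
      algebraMap k Ω b') = 0 := by
    linear_combination h - hz'
  rcases mul_eq_zero.1 hf with h1 | h1
  · exact ⟨z, (sub_eq_zero.1 h1).symm⟩
  · refine ⟨-z - b' / a', ?_⟩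
    rw [map_sub, map_neg, map_div₀]
    have ha0' : algebraMap k Ω a' ≠ 0 := ha0
    field_simp
    linear_combination -h1

/-- change of basis of a `2 x 2` matrix -/
theorem conj_exists (N : Matrix (Fin 2) (Fin 2) Ω) (l1 l2 : Ω) (hl : l1 ≠ l2)
    (h1 : (N - l1 • 1).det = 0) (h2 : (N - l2 • 1).det = 0) :
    ∃ S : Matrix (Fin 2) (Fin 2) Ω, IsUnit S.det ∧ S⁻¹ * N * S = diagonal ![l1, l2] := by
  obtain ⟨v, hv, hv'⟩ := Matrix.exists_mulVec_eq_zero_iff.2 h1
  obtain ⟨w, hw, hw'⟩ := Matrix.exists_mulVec_eq_zero_iff.2 h2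
  let S : Matrix (Fin 2) (Fin 2) Ω := Matrix.of fun i j => ![v, w] j i
  have e1 : ∀ i, ∑ j, N i j * v j = l1 * v i := by
    intro i
    have h := congrFun hv' i
    simp only [sub_mulVec, Pi.sub_apply, smul_mulVec, one_mulVec, Pi.smul_apply, smul_eq_mul,
      Pi.zero_apply, sub_eq_zero] at h
    exact h
  have e2 : ∀ i, ∑ j, N i j * w j = l2 * w i := by
    intro i
    have h := congrFun hw' i
    simp only [sub_mulVec, Pi.sub_apply, smul_mulVec, one_mulVec, Pi.smul_apply, smul_eq_mul,
      Pi.zero_apply, sub_eq_zero] at h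
    exact h
  have hNS : N * S = S * diagonal ![l1, l2] := by
    ext i j
    rw [Matrix.mul_apply, Matrix.mul_diagonal]
    fin_cases j
    · simpa [S, mul_comm] using e1 i
    · simpa [S, mul_comm] using e2 i
  have hS : IsUnit S.det := by
    rw [isUnit_iff_ne_zero]
    intro h0
    obtain ⟨c, hc, hc'⟩ := Matrix.exists_mulVec_eq_zero_iff.2 h0
    have hS1 : S *ᵥ (diagonal ![l1, l2] *ᵥ c) = 0 := by
      rw [Matrix.mulVec_mulVec, ← hNS, ← Matrix.mulVec_mulVec, hc', Matrix.mulVec_zero]
    have c1 : ∀ i, v i * c 0 + w i * c 1 = 0 := by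
      intro i
      have h := congrFun hc' i
      simpa [S, Matrix.mulVec, dotProduct, Fin.sum_univ_two] using h
    have c2 : ∀ i, v i * (l1 * c 0) + w i * (l2 * c 1) = 0 := by
      intro i
      have h := congrFun hS1 i
      simpa [S, Matrix.mulVec, dotProduct, Fin.sum_univ_two, diagonal_apply] using h
    have c3 : ∀ i, v i * c 0 = 0 := by
      intro i
      have h : (l1 - l2) * (v i * c 0) = 0 := by
        linear_combination c2 i - l2 * c1 i
      exact (mul_eq_zero.1 h).resolve_left (sub_ne_zero.2 hl)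
    have hc0 : c 0 = 0 := by
      by_contra hne
      apply hv
      funext i
      exact (mul_eq_zero.1 (c3 i)).resolve_right hne
    have hc1 : c 1 = 0 := by
      by_contra hne
      apply hw
      funext i
      have h := c1 i
      rw [hc0, mul_zero, zero_add] at h
      exact (mul_eq_zero.1 h).resolve_right hne
    apply hc
    funext i
    fin_cases i
    · exact hc0
    · exact hc1
  refine ⟨S, hS, ?_⟩
  rw [mul_assoc, hNS, ← mul_assoc, Matrix.nonsing_inv_mul S hS, one_mul]

/-- trace form of the `2 x 2` matrices -/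
theorem det_add_two (X Y : Matrix (Fin 2) (Fin 2) Ω) :
    (X + Y).det = X.det + Y.det + X.trace * Y.trace - (X * Y).trace := by
  simp only [Matrix.det_fin_two, Matrix.trace_fin_two, Matrix.add_apply, Matrix.mul_apply,
    Fin.sum_univ_two]
  ring

variable {V : Type*} [AddCommGroup V] [Module k V]

/-- the conclusion of the matrix lemma -/
def MatGood (k : Type*) {Ω V : Type*} [Field k] [Field Ω] [Algebra k Ω] [AddCommGroup V]
    [Module k V] (N : V →ₗ[k] Matrix (Fin 2) (Fin 2) Ω) (A0 : V) : Prop :=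
  ∃ P Q : Matrix (Fin 2) (Fin 2) Ω, IsUnit P.det ∧ IsUnit Q.det ∧
    (((∀ A i j, (P * N A * Q) i j ∈ KK k Ω) ∧
      ∃ A : Fin 3 → V, LinearIndependent k (fun i => P * N (A i) * Q)) ∨
     ((∀ A, (P * N A * Q) 1 0 = 0) ∧ (∀ A, (P * N A * Q) 0 0 ∈ KK k Ω) ∧
       (P * N A0 * Q) 0 0 ≠ 0))

theorem MatGood.congr (N N' : V →ₗ[k] Matrix (Fin 2) (Fin 2) Ω) (A0 : V)
    (P0 Q0 : Matrix (Fin 2) (Fin 2) Ω) (hP0 : IsUnit P0.det) (hQ0 : IsUnit Q0.det)
    (h : ∀ A, N' A = P0 * N A * Q0) (hg : MatGood k N' A0) : MatGood k N A0 := by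
  obtain ⟨P, Q, hP, hQ, hc⟩ := hg
  have e : ∀ A, P * N' A * Q = (P * P0) * N A * (Q0 * Q) := by
    intro A; rw [h]; simp only [mul_assoc]
  simp only [e] at hc
  exact ⟨P * P0, Q0 * Q, by rw [det_mul]; exact hP.mul hP0, by rw [det_mul]; exact hQ0.mul hQ, hc⟩

/-- the diagonalised case -/
theorem mat_diag [IsAlgClosed k] (N : V →ₗ[k] Matrix (Fin 2) (Fin 2) Ω) (A0 B : V)
    (h1 : N A0 = 1) (l1 l2 : Ω) (hl1 : l1 ∈ KK k Ω) (hl2 : l2 ∈ KK k Ω) (hl : l1 ≠ l2)
    (hB : N B = diagonal ![l1, l2]) (hdet : ∀ A, (N A).det ∈ KK k Ω)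
    (htr : ∀ A, (N A).trace ∈ KK k Ω) (htr2 : ∀ A C, (N A * N C).trace ∈ KK k Ω) :
    MatGood k N A0 := by
  have hd : ∀ C, N C 0 0 ∈ KK k Ω ∧ N C 1 1 ∈ KK k Ω := by
    intro C
    have a1 := htr C
    have a2 := htr2 B C
    rw [hB] at a2
    simp only [Matrix.trace_fin_two, Matrix.diagonal_mul, Matrix.cons_val_zero,
      Matrix.cons_val_one] at a1 a2
    have hne : l1 - l2 ≠ 0 := sub_ne_zero.2 hl
    constructor
    · have : N C 0 0 = (l1 * N C 0 0 + l2 * N C 1 1 - l2 * (N C 0 0 + N C 1 1)) / (l1 - l2) := by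
        field_simp; ring
      rw [this]
      exact div_mem (sub_mem a2 (mul_mem hl2 a1)) (sub_mem hl1 hl2)
    · have : N C 1 1 = (l1 * (N C 0 0 + N C 1 1) - (l1 * N C 0 0 + l2 * N C 1 1)) / (l1 - l2) := by
        field_simp; ring
      rw [this]
      exact div_mem (sub_mem (mul_mem hl1 a1) a2) (sub_mem hl1 hl2)
  have hoff : ∀ C, N C 0 1 * N C 1 0 ∈ KK k Ω := by
    intro C
    have h := hdet C
    rw [Matrix.det_fin_two] at h
    have : N C 0 1 * N C 1 0 = N C 0 0 * N C 1 1 - (N C 0 0 * N C 1 1 - N C 0 1 * N C 1 0) := by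
      ring
    rw [this]
    exact sub_mem (mul_mem (hd C).1 (hd C).2) h
  by_cases hex : ∃ C, N C 0 1 * N C 1 0 ≠ 0
  · obtain ⟨C, hC⟩ := hex
    have hc1 : N C 0 1 ≠ 0 := left_ne_zero_of_mul hC
    have hc2 : N C 1 0 ≠ 0 := right_ne_zero_of_mul hC
    set d := N C 0 1 with hdd
    have hent : ∀ D, N D 0 1 / d ∈ KK k Ω ∧ N D 1 0 * d ∈ KK k Ω := by
      intro D
      have g1 := hoff D
      have g2 := hoff (C + D)
      rw [map_add, Matrix.add_apply, Matrix.add_apply] at g2
      have a0 : N C 0 1 * N C 1 0 ∈ KK k Ω := hoff C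
      -- u = N D 0 1 / d, w = N D 1 0 * d, a = N C 0 1 * N C 1 0
      have g3 : N D 1 0 * d + (N C 0 1 * N C 1 0) * (N D 0 1 / d) ∈ KK k Ω := by
        have : N D 1 0 * d + (N C 0 1 * N C 1 0) * (N D 0 1 / d) =
            (N C 0 1 + N D 0 1) * (N C 1 0 + N D 1 0) - N C 0 1 * N C 1 0 -
              N D 0 1 * N D 1 0 := by
          rw [← hdd]; field_simp; ring
        rw [this]
        exact sub_mem (sub_mem g2 a0) g1
      have hu : N D 0 1 / d ∈ KK k Ω := by
        refine quad_mem (N C 0 1 * N C 1 0)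
          (-(N D 1 0 * d + (N C 0 1 * N C 1 0) * (N D 0 1 / d))) (N D 0 1 * N D 1 0) _ a0
          (neg_mem g3) g1 hC ?_
        rw [← hdd]; field_simp; ring
      refine ⟨hu, ?_⟩
      have : N D 1 0 * d = (N D 1 0 * d + (N C 0 1 * N C 1 0) * (N D 0 1 / d)) -
          (N C 0 1 * N C 1 0) * (N D 0 1 / d) := by ring
      rw [this]
      exact sub_mem g3 (mul_mem a0 hu)
    have hent' : ∀ D, (diagonal ![d⁻¹, 1] * N D * diagonal ![d, 1]) =
        !![N D 0 0, N D 0 1 / d; N D 1 0 * d, N D 1 1] := by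
      intro D
      ext i j
      rw [Matrix.mul_diagonal, Matrix.diagonal_mul]
      fin_cases i <;> fin_cases j <;> simp <;> field_simp
    refine ⟨diagonal ![d⁻¹, 1], diagonal ![d, 1], ?_, ?_, Or.inl ⟨?_, ![A0, B, C], ?_⟩⟩
    · rw [isUnit_iff_ne_zero, Matrix.det_diagonal]; simpa [Fin.prod_univ_two] using hc1
    · rw [isUnit_iff_ne_zero, Matrix.det_diagonal]; simpa [Fin.prod_univ_two] using hc1
    · intro A i j
      rw [hent']
      fin_cases i <;> fin_cases j
      · exact (hd A).1
      · exact (hent A).1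
      · exact (hent A).2
      · exact (hd A).2
    · rw [Fintype.linearIndependent_iff]
      intro g hg
      simp only [hent', Fin.sum_univ_three, Matrix.cons_val_zero, Matrix.cons_val_one,
        Matrix.cons_val_two, Matrix.tail_cons, Matrix.head_cons, Matrix.cons_val] at hg
      rw [h1, hB] at hg
      have gij : ∀ i j, algebraMap k Ω (g 0) * (!![(1 : Matrix (Fin 2) (Fin 2) Ω) 0 0,
            (1 : Matrix (Fin 2) (Fin 2) Ω) 0 1 / d; (1 : Matrix (Fin 2) (Fin 2) Ω) 1 0 * d,
            (1 : Matrix (Fin 2) (Fin 2) Ω) 1 1] : Matrix (Fin 2) (Fin 2) Ω) i j +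
          algebraMap k Ω (g 1) * (!![diagonal ![l1, l2] 0 0, diagonal ![l1, l2] 0 1 / d;
            diagonal ![l1, l2] 1 0 * d, diagonal ![l1, l2] 1 1] : Matrix (Fin 2) (Fin 2) Ω) i j +
          algebraMap k Ω (g 2) * (!![N C 0 0, N C 0 1 / d; N C 1 0 * d, N C 1 1] :
            Matrix (Fin 2) (Fin 2) Ω) i j = 0 := by
        intro i j
        have h := congrFun (congrFun hg i) j
        rw [Matrix.add_apply, Matrix.add_apply, Matrix.smul_apply, Matrix.smul_apply,
          Matrix.smul_apply, Algebra.smul_def, Algebra.smul_def, Algebra.smul_def] at h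
        exact h
      have g01 := gij 0 1
      have g00 := gij 0 0
      have g11 := gij 1 1
      simp at g01 g00 g11
      have e2 : g 2 = 0 := by
        rcases g01 with h | h
        · exact h
        · rcases h with h | h
          · exact absurd (hdd.symm ▸ h) hc1
          · exact absurd h hc1
      rw [e2, map_zero, zero_mul, add_zero] at g00 g11
      have e1 : algebraMap k Ω (g 1) * (l1 - l2) = 0 := by linear_combination g00 - g11
      have e1' : algebraMap k Ω (g 1) = 0 := (mul_eq_zero.1 e1).resolve_right (sub_ne_zero.2 hl)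
      have e1'' : g 1 = 0 := by simpa using e1'
      rw [e1', zero_mul, add_zero] at g00
      have e0 : g 0 = 0 := by simpa using g00
      intro i
      fin_cases i
      · exact e0
      · exact e1''
      · exact e2
  · push Not at hex
    have hor : (∀ C, N C 0 1 = 0) ∨ (∀ C, N C 1 0 = 0) := by
      by_contra hcon
      push Not at hcon
      obtain ⟨⟨C, hC⟩, ⟨D, hD⟩⟩ := hcon
      have hC' : N C 1 0 = 0 := (mul_eq_zero.1 (hex C)).resolve_left hC
      have hD' : N D 0 1 = 0 := (mul_eq_zero.1 (hex D)).resolve_right hD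
      have h := hex (C + D)
      rw [map_add, Matrix.add_apply, Matrix.add_apply, hC', hD', add_zero, zero_add] at h
      exact (mul_ne_zero hC hD) h
    rcases hor with hor | hor
    · let W : Matrix (Fin 2) (Fin 2) Ω := Matrix.of ![![0, 1], ![1, 0]]
      have hW : ∀ X : Matrix (Fin 2) (Fin 2) Ω, W * X * W = !![X 1 1, X 1 0; X 0 1, X 0 0] := by
        intro X
        ext i j
        simp only [Matrix.mul_apply, Fin.sum_univ_two, W]
        fin_cases i <;> fin_cases j <;> simp
      refine ⟨W, W, ?_, ?_, Or.inr ⟨?_, ?_, ?_⟩⟩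
      · simp [W, Matrix.det_fin_two]
      · simp [W, Matrix.det_fin_two]
      · intro A; rw [hW]; simpa using hor A
      · intro A; rw [hW]; simpa using (hd A).2
      · rw [hW]; simp [h1]
    · refine ⟨1, 1, by simp, by simp, Or.inr ⟨?_, ?_, ?_⟩⟩
      · intro A; simpa using hor A
      · intro A; simpa using (hd A).1
      · simp [h1]

/-- a common eigenvector -/
theorem mat_common (N : V →ₗ[k] Matrix (Fin 2) (Fin 2) Ω) (A0 : V) (h1 : N A0 = 1)
    (v : Fin 2 → Ω) (hv : v ≠ 0) (l : V → Ω) (hl : ∀ A, l A ∈ KK k Ω)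
    (hN : ∀ A i, ∑ j, N A i j * v j = l A * v i) : MatGood k N A0 := by
  obtain ⟨w, hw⟩ : ∃ w : Fin 2 → Ω, v 0 * w 1 - v 1 * w 0 ≠ 0 := by
    by_cases h0 : v 0 = 0
    · have hv1 : v 1 ≠ 0 := by
        intro hv1
        apply hv
        funext i
        fin_cases i
        · exact h0
        · exact hv1
      exact ⟨![1, 0], by simpa using hv1⟩
    · exact ⟨![0, 1], by simpa using h0⟩
  let S : Matrix (Fin 2) (Fin 2) Ω := Matrix.of fun i j => ![v, w] j i
  have hS : IsUnit S.det := by
    rw [isUnit_iff_ne_zero, Matrix.det_fin_two]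
    simpa [S, mul_comm] using hw
  have hcol : ∀ A i, (S⁻¹ * N A * S) i 0 = l A * (1 : Matrix (Fin 2) (Fin 2) Ω) i 0 := by
    intro A i
    have e : ∀ i, (N A * S) i 0 = l A * S i 0 := by
      intro i
      rw [Matrix.mul_apply]
      exact hN A i
    rw [mul_assoc, Matrix.mul_apply]
    simp only [e]
    rw [← Matrix.nonsing_inv_mul S hS, Matrix.mul_apply, Finset.mul_sum]
    refine Finset.sum_congr rfl fun j _ => by ring
  have hA0 : ∑ j, N A0 0 j * v j = l A0 * v 0 := hN A0 0
  have hl0 : l A0 = 1 := by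
    have e := hcol A0 0
    rw [h1, mul_one, Matrix.nonsing_inv_mul S hS] at e
    simpa using e.symm
  refine ⟨S⁻¹, S, ?_, hS, Or.inr ⟨?_, ?_, ?_⟩⟩
  · exact Matrix.isUnit_nonsing_inv_det S hS
  · intro A; rw [hcol]; simp
  · intro A; rw [hcol]; simpa using hl A
  · rw [hcol, hl0]; simp

theorem mat_nil [CharZero k] (N : V →ₗ[k] Matrix (Fin 2) (Fin 2) Ω) (A0 : V) (h1 : N A0 = 1)
    (htr : ∀ A, (N A).trace ∈ KK k Ω) (h : ∀ A, (N A).trace ^ 2 = 4 * (N A).det) :
    MatGood k N A0 := by
  have : CharZero Ω := charZero_of_injective_algebraMap (algebraMap k Ω).injective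
  let n : V → Matrix (Fin 2) (Fin 2) Ω := fun A => N A - ((N A).trace / 2) • 1
  have hnadd : ∀ A B, n (A + B) = n A + n B := by
    intro A B
    simp only [n, map_add, Matrix.trace_add, add_div, add_smul]
    abel
  have hnil : ∀ A, n A * n A = 0 := by
    intro A
    have hA := h A
    rw [Matrix.trace_fin_two, Matrix.det_fin_two] at hA
    ext i j
    simp only [n, Matrix.mul_apply, Fin.sum_univ_two, Matrix.sub_apply, Matrix.smul_apply,
      Matrix.trace_fin_two, Matrix.one_apply, Matrix.zero_apply, smul_eq_mul]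
    fin_cases i <;> fin_cases j <;> simp <;> first | linear_combination hA / 4 | ring
  have hanti : ∀ A B, n A * n B + n B * n A = 0 := by
    intro A B
    have h2 := hnil (A + B)
    rw [hnadd, add_mul, mul_add, mul_add, hnil, hnil] at h2
    simpa [add_comm] using h2
  have hl : ∀ A, (N A).trace / 2 ∈ KK k Ω := fun A =>
    div_mem (htr A) (ofNat_mem _ 2)
  by_cases h0 : ∀ A, n A = 0
  · have hN : ∀ A, N A = ((N A).trace / 2) • 1 := fun A => sub_eq_zero.1 (h0 A)
    refine mat_common N A0 h1 ![1, 0] (by simp) (fun A => (N A).trace / 2) hl ?_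
    intro A i
    conv_lhs => rw [hN A]
    fin_cases i <;> simp [Fin.sum_univ_two]
  · push Not at h0
    obtain ⟨B, hB⟩ := h0
    obtain ⟨w, hw⟩ : ∃ w, n B *ᵥ w ≠ 0 := by
      by_contra hcon
      push Not at hcon
      apply hB
      ext i j
      have h2 := congrFun (hcon (Pi.single j 1)) i
      simpa using h2
    set v := n B *ᵥ w with hv
    have hker : ∀ A, n A *ᵥ v = 0 := by
      intro A
      set u := n A *ᵥ v with hu
      have hBv : n B *ᵥ v = 0 := by rw [hv, Matrix.mulVec_mulVec, hnil, Matrix.zero_mulVec]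
      have hBu : n B *ᵥ u = 0 := by
        rw [hu, Matrix.mulVec_mulVec]
        have h3 : n B * n A = - (n A * n B) := by
          rw [eq_neg_iff_add_eq_zero]; exact hanti B A
        rw [h3, Matrix.neg_mulVec, ← Matrix.mulVec_mulVec, hBv, Matrix.mulVec_zero, neg_zero]
      have hAu : n A *ᵥ u = 0 := by rw [hu, Matrix.mulVec_mulVec, hnil, Matrix.zero_mulVec]
      have hdet : v 0 * u 1 - v 1 * u 0 = 0 := by
        by_contra hne
        apply hB
        have b1 : ∀ i, n B i 0 * v 0 + n B i 1 * v 1 = 0 := by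
          intro i
          have h4 := congrFun hBv i
          simpa [Matrix.mulVec, dotProduct, Fin.sum_univ_two] using h4
        have b2 : ∀ i, n B i 0 * u 0 + n B i 1 * u 1 = 0 := by
          intro i
          have h4 := congrFun hBu i
          simpa [Matrix.mulVec, dotProduct, Fin.sum_univ_two] using h4
        ext i j
        have c0 : n B i 0 * (v 0 * u 1 - v 1 * u 0) = 0 := by
          linear_combination u 1 * b1 i - v 1 * b2 i
        have c1 : n B i 1 * (v 0 * u 1 - v 1 * u 0) = 0 := by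
          linear_combination v 0 * b2 i - u 0 * b1 i
        fin_cases j
        · exact (mul_eq_zero.1 c0).resolve_right hne
        · exact (mul_eq_zero.1 c1).resolve_right hne
      obtain ⟨μ, hμ⟩ : ∃ μ : Ω, u = μ • v := by
        by_cases hv0 : v 0 = 0
        · have hv1 : v 1 ≠ 0 := by
            intro hv1
            apply hw
            funext i
            fin_cases i
            · exact hv0
            · exact hv1
          refine ⟨u 1 / v 1, ?_⟩
          funext i
          fin_cases i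
          · rw [hv0, zero_mul, zero_sub, neg_eq_zero] at hdet
            have h5 : u 0 = 0 := (mul_eq_zero.1 hdet).resolve_left hv1
            simp [h5, hv0]
          · simp [hv1]
        · refine ⟨u 0 / v 0, ?_⟩
          funext i
          fin_cases i
          · simp [hv0]
          · simp only [Pi.smul_apply, smul_eq_mul]
            change u 1 = u 0 / v 0 * v 1
            field_simp
            linear_combination hdet
      have h6 : n A *ᵥ u = μ • u := by
        conv_lhs => rw [hμ]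
        rw [Matrix.mulVec_smul, ← hu]
      rw [hAu] at h6
      rcases smul_eq_zero.1 h6.symm with h7 | h7
      · rw [hμ, h7, zero_smul]
      · exact h7
    refine mat_common N A0 h1 v hw (fun A => (N A).trace / 2) hl ?_
    intro A i
    have h8 := congrFun (hker A) i
    simp only [n, Matrix.sub_mulVec, Pi.sub_apply, Matrix.smul_mulVec, Matrix.one_mulVec,
      Pi.smul_apply, smul_eq_mul, Pi.zero_apply, sub_eq_zero] at h8
    exact h8

/-- MATRIX LEMMA -/
theorem mat_lemma [IsAlgClosed k] [CharZero k] (Φ : V →ₗ[k] Matrix (Fin 2) (Fin 2) Ω) (c0 : Ω)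
    (q : V → k) (hq : ∀ A, (Φ A).det = c0 * algebraMap k Ω (q A)) (A0 : V)
    (hA0 : (Φ A0).det ≠ 0) : MatGood k Φ A0 := by
  have hc0 : c0 ≠ 0 := by
    rintro rfl; exact hA0 (by rw [hq, zero_mul])
  have hq0 : algebraMap k Ω (q A0) ≠ 0 := by
    intro h; exact hA0 (by rw [hq, h, mul_zero])
  have hu : IsUnit (Φ A0).det := isUnit_iff_ne_zero.2 hA0
  let N : V →ₗ[k] Matrix (Fin 2) (Fin 2) Ω :=
    { toFun := fun A => (Φ A0)⁻¹ * Φ A
      map_add' := fun A B => by rw [map_add, mul_add]
      map_smul' := fun c A => by rw [map_smul, Matrix.mul_smul]; rfl }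
  have hNdef : ∀ A, N A = (Φ A0)⁻¹ * Φ A * 1 := fun A => by rw [mul_one]; rfl
  have hN1 : N A0 = 1 := by rw [hNdef, mul_one, Matrix.nonsing_inv_mul _ hu]
  have hdet : ∀ A, (N A).det ∈ KK k Ω := by
    intro A
    rw [hNdef, mul_one, Matrix.det_mul, Matrix.det_nonsing_inv, Ring.inverse_eq_inv', hq, hq]
    refine ⟨q A / q A0, ?_⟩
    rw [map_div₀]
    field_simp
  have htr : ∀ A, (N A).trace ∈ KK k Ω := by
    intro A
    have h := det_add_two (N A0) (N A)
    rw [← map_add, hN1, one_mul] at h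
    have e : (N A).trace = (N (A0 + A)).det - 1 - (N A).det := by
      rw [h]; simp; ring
    rw [e]
    exact sub_mem (sub_mem (hdet _) (one_mem _)) (hdet _)
  have htr2 : ∀ A C, (N A * N C).trace ∈ KK k Ω := by
    intro A C
    have h := det_add_two (N A) (N C)
    rw [← map_add] at h
    have e : (N A * N C).trace = (N A).det + (N C).det + (N A).trace * (N C).trace -
        (N (A + C)).det := by rw [h]; ring
    rw [e]
    exact sub_mem (add_mem (add_mem (hdet _) (hdet _)) (mul_mem (htr _) (htr _))) (hdet _)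
  refine MatGood.congr Φ N A0 (Φ A0)⁻¹ 1 (Matrix.isUnit_nonsing_inv_det _ hu) (by simp) hNdef ?_
  by_cases hall : ∀ A, (N A).trace ^ 2 = 4 * (N A).det
  · exact mat_nil N A0 hN1 htr hall
  · push Not at hall
    obtain ⟨B, hB⟩ := hall
    obtain ⟨t, ht⟩ := htr B
    obtain ⟨d, hd⟩ := hdet B
    obtain ⟨z, hz⟩ := quad_root (1 : k) (-t) d one_ne_zero
    have hz' : (algebraMap k Ω z) ^ 2 - (N B).trace * algebraMap k Ω z + (N B).det = 0 := by
      rw [← ht, ← hd, ← map_pow, ← map_mul, ← map_sub, ← map_add, ← map_zero (algebraMap k Ω)]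
      congr 1
      linear_combination hz
    have hdd : ∀ l : Ω, (N B - l • 1).det = l ^ 2 - (N B).trace * l + (N B).det := by
      intro l
      rw [Matrix.det_fin_two, Matrix.det_fin_two, Matrix.trace_fin_two]
      simp
      ring
    set l1 := algebraMap k Ω z with hl1
    set l2 := (N B).trace - l1 with hl2
    have hl2' : l2 ^ 2 - (N B).trace * l2 + (N B).det = 0 := by
      rw [hl2]; linear_combination hz'
    have hne : l1 ≠ l2 := by
      intro heq
      apply hB
      have e1 : (N B).trace = 2 * l1 := by rw [hl2] at heq; linear_combination -heq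
      rw [e1] at hz' ⊢
      linear_combination (-4) * hz'
    obtain ⟨S, hS, hSN⟩ := conj_exists (N B) l1 l2 hne (by rw [hdd]; exact hz')
      (by rw [hdd]; exact hl2')
    let N' : V →ₗ[k] Matrix (Fin 2) (Fin 2) Ω :=
      { toFun := fun A => S⁻¹ * N A * S
        map_add' := fun A B => by rw [map_add, mul_add, add_mul]
        map_smul' := fun c A => by rw [map_smul, Matrix.mul_smul, Matrix.smul_mul]; rfl }
    have hN' : ∀ A, N' A = S⁻¹ * N A * S := fun A => rfl
    have hcd : ∀ A, (N' A).det = (N A).det := by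
      intro A
      rw [hN', Matrix.det_mul, Matrix.det_mul, Matrix.det_nonsing_inv, Ring.inverse_eq_inv']
      field_simp [hS.ne_zero]
    have hct : ∀ X : Matrix (Fin 2) (Fin 2) Ω, (S⁻¹ * X * S).trace = X.trace := by
      intro X
      rw [Matrix.trace_mul_comm, ← mul_assoc, Matrix.mul_nonsing_inv S hS, one_mul]
    refine MatGood.congr N N' A0 S⁻¹ S (Matrix.isUnit_nonsing_inv_det _ hS) hS hN' ?_
    refine mat_diag N' A0 B ?_ l1 l2 ⟨z, rfl⟩ (sub_mem (htr B) ⟨z, rfl⟩) hne ?_ ?_ ?_ ?_
    · rw [hN', hN1, mul_one, Matrix.nonsing_inv_mul S hS]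
    · rw [hN']; exact hSN
    · intro A; rw [hcd]; exact hdet A
    · intro A; rw [hN', hct]; exact htr A
    · intro A C
      have e : N' A * N' C = S⁻¹ * (N A * N C) * S := by
        rw [hN', hN']
        calc S⁻¹ * N A * S * (S⁻¹ * N C * S) = S⁻¹ * N A * (S * S⁻¹) * N C * S := by
              simp only [mul_assoc]
          _ = S⁻¹ * (N A * N C) * S := by
              rw [Matrix.mul_nonsing_inv S hS, mul_one]; simp only [mul_assoc]
      rw [e, hct]
      exact htr2 A C

end

end LangT1
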