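import Pool.Agent.Lib.MP_c7af3c_ag.T1.H65.Kill
import Pool.Agent.Lib.MP_c7af3c_ag.T1.H65.Mat

/-!
# T1, core R5, part 4: configurations and the reduction to a rational linear form (helper65)
-/

namespace LangT1

open MvPolynomial

variable {k Ω : Type*} [Field k] [Field Ω] [Algebra k Ω]

/-- the matrix `(θ i j A)` -/
noncomputable def Th (θ : Fin 2 → Fin 2 → (MvPolynomial (Fin 3) k →ₗ[k] k)) (A : MvPolynomial (Fin 3) k) :
    Matrix (Fin 2) (Fin 2) k := Matrix.of fun i j => θ i j A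

structure Cfg (x : Fin 3 → Ω) (f : Fin 4 → MvPolynomial (Fin 3) k) (κ : Fin 2 → Fin 3 → Ω)
    (θ : Fin 2 → Fin 2 → (MvPolynomial (Fin 3) k →ₗ[k] k)) : Prop where
  orth : ∀ i, ∑ c, κ i c * x c = 0
  ind : LinearIndependent Ω κ
  rel : ∀ j B, B.IsHomogeneous 3 → ∑ c, κ 1 c * algebraMap k Ω (θ 0 j (X c * B)) =
    ∑ c, κ 0 c * algebraMap k Ω (θ 1 j (X c * B))
  ann : ∀ i j p, θ i j (f p) = 0
  det : ∃ A, A.IsHomogeneous 4 ∧ (Th θ A).det ≠ 0
  rank : ∃ A : Fin 3 → MvPolynomial (Fin 3) k, (∀ i, (A i).IsHomogeneous 4) ∧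
    LinearIndependent k (fun i => Th θ (A i))

/-- change of bases -/
theorem Cfg.transform {x : Fin 3 → Ω} {f : Fin 4 → MvPolynomial (Fin 3) k}
    {κ : Fin 2 → Fin 3 → Ω} {θ : Fin 2 → Fin 2 → (MvPolynomial (Fin 3) k →ₗ[k] k)}
    (h : Cfg x f κ θ) (g u : Matrix (Fin 2) (Fin 2) k) (hg : IsUnit g.det) (hu : IsUnit u.det) :
    Cfg x f (fun i c => ∑ a, algebraMap k Ω (g i a) * κ a c)
      (fun i j => ∑ a, ∑ b, (g i a * u b j) • θ a b) := by
  have hTh : ∀ A, Th (fun i j => ∑ a, ∑ b, (g i a * u b j) • θ a b) A = g * Th θ A * u := by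
    intro A
    ext i j
    simp only [Th, Matrix.of_apply, Matrix.mul_apply, Fin.sum_univ_two, LinearMap.add_apply,
      LinearMap.smul_apply, smul_eq_mul]
    ring
  refine ⟨?_, ?_, ?_, ?_, ?_, ?_⟩
  · intro i
    have h0 := h.orth 0
    have h1 := h.orth 1
    simp only [Fin.sum_univ_two, Fin.sum_univ_three] at h0 h1 ⊢
    linear_combination algebraMap k Ω (g i 0) * h0 + algebraMap k Ω (g i 1) * h1
  · have hi := h.ind
    rw [Fintype.linearIndependent_iff] at hi ⊢
    intro c hc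
    have hgd : algebraMap k Ω (g 0 0) * algebraMap k Ω (g 1 1) -
        algebraMap k Ω (g 0 1) * algebraMap k Ω (g 1 0) ≠ 0 := by
      rw [← map_mul, ← map_mul, ← map_sub, ← Matrix.det_fin_two]
      exact (map_ne_zero _).2 hg.ne_zero
    have h2 := hi (fun a => c 0 * algebraMap k Ω (g 0 a) + c 1 * algebraMap k Ω (g 1 a)) (by
      rw [← hc]
      funext j
      simp only [Fin.sum_univ_two, Pi.add_apply, Pi.smul_apply, smul_eq_mul]
      ring)
    have e0 := h2 0
    have e1 := h2 1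
    intro i
    fin_cases i
    · have : c 0 * (algebraMap k Ω (g 0 0) * algebraMap k Ω (g 1 1) -
        algebraMap k Ω (g 0 1) * algebraMap k Ω (g 1 0)) = 0 := by
        linear_combination algebraMap k Ω (g 1 1) * e0 - algebraMap k Ω (g 1 0) * e1
      exact (mul_eq_zero.1 this).resolve_right hgd
    · have : c 1 * (algebraMap k Ω (g 0 0) * algebraMap k Ω (g 1 1) -
        algebraMap k Ω (g 0 1) * algebraMap k Ω (g 1 0)) = 0 := by
        linear_combination algebraMap k Ω (g 0 0) * e1 - algebraMap k Ω (g 0 1) * e0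
      exact (mul_eq_zero.1 this).resolve_right hgd
  · intro j B hB
    have h0 := h.rel 0 B hB
    have h1 := h.rel 1 B hB
    simp only [Fin.sum_univ_two, Fin.sum_univ_three, LinearMap.add_apply, LinearMap.smul_apply,
      smul_eq_mul, map_add, map_mul] at h0 h1 ⊢
    linear_combination (algebraMap k Ω (g 1 1) * algebraMap k Ω (g 0 0) -
      algebraMap k Ω (g 0 1) * algebraMap k Ω (g 1 0)) *
      (algebraMap k Ω (u 0 j) * h0 + algebraMap k Ω (u 1 j) * h1)
  · intro i j p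
    simp [LinearMap.sum_apply, h.ann]
  · obtain ⟨A, hA, hd⟩ := h.det
    refine ⟨A, hA, ?_⟩
    rw [hTh, Matrix.det_mul, Matrix.det_mul]
    exact mul_ne_zero (mul_ne_zero hg.ne_zero hd) hu.ne_zero
  · obtain ⟨A, hA, hl⟩ := h.rank
    refine ⟨A, hA, ?_⟩
    simp only [hTh]
    let L : Matrix (Fin 2) (Fin 2) k →ₗ[k] Matrix (Fin 2) (Fin 2) k :=
      { toFun := fun M => g * M * u
        map_add' := fun M M' => by rw [mul_add, add_mul]
        map_smul' := fun c M => by rw [Matrix.mul_smul, Matrix.smul_mul]; rfl }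
    have hL : LinearMap.ker L = ⊥ := by
      rw [LinearMap.ker_eq_bot']
      intro M hM
      have hM' : g * M * u = 0 := hM
      have e : g⁻¹ * (g * M * u) * u⁻¹ = M := by
        calc g⁻¹ * (g * M * u) * u⁻¹ = (g⁻¹ * g) * M * (u * u⁻¹) := by simp only [mul_assoc]
          _ = M := by
            rw [Matrix.nonsing_inv_mul g hg, Matrix.mul_nonsing_inv u hu, one_mul, mul_one]
      rw [← e, hM', mul_zero, zero_mul]
    exact hl.map' L hL

theorem Cfg.scale {x : Fin 3 → Ω} {f : Fin 4 → MvPolynomial (Fin 3) k}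
    {κ : Fin 2 → Fin 3 → Ω} {θ : Fin 2 → Fin 2 → (MvPolynomial (Fin 3) k →ₗ[k] k)}
    (h : Cfg x f κ θ) (s : Ω) (hs : s ≠ 0) : Cfg x f (fun i c => s * κ i c) θ := by
  refine ⟨?_, ?_, ?_, h.ann, h.det, h.rank⟩
  · intro i
    simp only [mul_assoc]
    rw [← Finset.mul_sum, h.orth, mul_zero]
  · have h2 := h.ind
    have : (fun i c => s * κ i c) = fun i => (Units.mk0 s hs) • κ i := by
      funext i c; rfl
    rw [this]
    exact h2.units_smul _
  · intro j B hB
    simp only [mul_assoc]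
    rw [← Finset.mul_sum, ← Finset.mul_sum, h.rel j B hB]

/-- (KILL) -/
theorem kill [CharZero k] (x : Fin 3 → Ω) (hx : LinearIndependent k x)
    (f : Fin 4 → MvPolynomial (Fin 3) k) (BP : ∀ p : Fin 3 → k, p ≠ 0 → ∃ i, eval p (f i) ≠ 0)
    (hf : ∀ i, (f i).IsHomogeneous 4) (n : Fin 3 → Ω) (hn : n ≠ 0)
    (hnx : ∑ i, n i * x i = 0) (θ : MvPolynomial (Fin 3) k →ₗ[k] k) (hθ : Kills n θ 3)
    (hθf : ∀ p, θ (f p) = 0) (A : MvPolynomial (Fin 3) k) (hA : A.IsHomogeneous 4) : θ A = 0 := by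
  obtain ⟨p, hp, h⟩ := non_rational x hx n hn hnx
  obtain ⟨c, hc⟩ := h 3 θ hθ
  obtain ⟨i, hi⟩ := BP p hp
  have h1 := hc (f i) (hf i)
  rw [hθf] at h1
  have hc0 : c = 0 := (mul_eq_zero.1 h1.symm).resolve_right hi
  rw [hc A hA, hc0, zero_mul]

/-- simultaneous eigenvector -/
theorem eig [IsAlgClosed k] {W E : Type*} [AddCommGroup W] [Module k W] [AddCommGroup E] [Module k E]
    [FiniteDimensional k W] [FiniteDimensional k E] (P Q : W →ₗ[k] E)
    (hdim : Module.finrank k E ≤ Module.finrank k W) (hW : 0 < Module.finrank k W) :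
    ∃ K : W, K ≠ 0 ∧ ∃ r : Fin 2 → k, r ≠ 0 ∧ r 0 • P K + r 1 • Q K = 0 := by
  by_cases hP : Function.Injective P
  · have hEW : Module.finrank k W = Module.finrank k E :=
      le_antisymm (LinearMap.finrank_le_finrank_of_injective hP) hdim
    let e : W ≃ₗ[k] E := LinearEquiv.ofInjectiveOfFinrankEq P hP hEW
    have : Nontrivial W := Module.finrank_pos_iff.1 hW
    obtain ⟨μ, hμ⟩ := Module.End.exists_eigenvalue (e.symm.toLinearMap ∘ₗ Q)
    obtain ⟨K, hK⟩ := hμ.exists_hasEigenvector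
    refine ⟨K, hK.2, ![-μ, 1], by simp, ?_⟩
    have h := hK.apply_eq_smul
    have h2 : Q K = μ • P K := by
      have h3 := congrArg e h
      rw [LinearMap.comp_apply, LinearEquiv.coe_coe, LinearEquiv.apply_symm_apply, map_smul] at h3
      exact h3
    simp [h2]
  · rw [← LinearMap.ker_eq_bot] at hP
    change P.ker ≠ ⊥ at hP
    rw [Submodule.ne_bot_iff] at hP
    obtain ⟨K, hK, hK0⟩ := hP
    refine ⟨K, hK0, ![1, 0], by simp, ?_⟩
    rw [LinearMap.mem_ker] at hK
    simp [hK]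

end LangT1
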