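import Pool.Agent.Lib.MP_c7af3c_ag.T1.H65.Basic

/-!
# T1, core R5, part 2: the non-rational lemma (NR) and its consequence (KILL) (helper65)
-/

namespace LangT1

open MvPolynomial

variable {k Ω : Type*} [Field k] [Field Ω] [Algebra k Ω]

/-- `n` kills `θ` in degree `d + 1`: `∑ n_c θ(X_c B) = 0` for all forms `B` of degree `d` -/
def Kills (n : Fin 3 → Ω) (θ : MvPolynomial (Fin 3) k →ₗ[k] k) (d : ℕ) : Prop :=
  ∀ B : MvPolynomial (Fin 3) k, B.IsHomogeneous d →
    ∑ c, n c * algebraMap k Ω (θ (X c * B)) = 0

/-- a vector `m` over `k` orthogonal to `x` is zero if the coordinates of `x` are `k`-independent -/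
theorem rational_zero (x : Fin 3 → Ω) (hx : LinearIndependent k x) (m : Fin 3 → k)
    (h : ∑ i, algebraMap k Ω (m i) * x i = 0) : m = 0 := by
  rw [Fintype.linearIndependent_iff] at hx
  funext i
  refine hx m ?_ i
  simpa [Algebra.smul_def] using h

/-- (NR) -/
theorem non_rational [CharZero k] (x : Fin 3 → Ω) (hx : LinearIndependent k x) (n : Fin 3 → Ω)
    (hn : n ≠ 0) (hnx : ∑ i, n i * x i = 0) :
    ∃ p : Fin 3 → k, p ≠ 0 ∧ ∀ (d : ℕ) (θ : MvPolynomial (Fin 3) k →ₗ[k] k), Kills n θ d →
      ∃ c, ∀ A : MvPolynomial (Fin 3) k, A.IsHomogeneous (d + 1) → θ A = c * eval p A := by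
  classical
  obtain ⟨r, e, w, he, hw⟩ := exp_lemma (k := k) n
  -- two of the `w a` are independent
  have h2 : ∃ a b, LinearIndependent k ![w a, w b] := by
    by_contra hcon
    push Not at hcon
    obtain ⟨a, ha⟩ : ∃ a, w a ≠ 0 := by
      by_contra h0
      push Not at h0
      apply hn
      funext i
      rw [hw i]
      simp [h0]
    have hb : ∀ b, ∃ c : k, w b = c • w a := by
      intro b
      have h := hcon a b
      rw [LinearIndependent.pair_iff' ha] at h
      push Not at h
      obtain ⟨c, hc⟩ := h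
      exact ⟨c, hc.symm⟩
    choose c hc using hb
    have hn' : ∀ i, n i = (∑ b, algebraMap k Ω (c b) * e b) * algebraMap k Ω (w a i) := by
      intro i
      rw [hw i, Finset.sum_mul]
      refine Finset.sum_congr rfl fun b _ => ?_
      rw [congrFun (hc b) i, Pi.smul_apply, smul_eq_mul, map_mul]
      ring
    have hs : (∑ b, algebraMap k Ω (c b) * e b) ≠ 0 := by
      intro h0
      apply hn
      funext i
      rw [hn' i, h0, zero_mul]; rfl
    apply ha
    apply rational_zero x hx
    have h := hnx
    simp only [hn', mul_assoc] at h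
    rw [← Finset.mul_sum] at h
    exact (mul_eq_zero.1 h).resolve_left hs
  obtain ⟨a, b, hab⟩ := h2
  -- complete to a basis
  obtain ⟨m, hm, hma, hmb⟩ : ∃ m : Fin 3 → Fin 3 → k, LinearIndependent k m ∧ m 0 = w a ∧
      m 1 = w b := by
    have hlt : Submodule.span k (Set.range ![w a, w b]) < ⊤ := by
      refine lt_top_iff_ne_top.2 fun htop => ?_
      have h1 : Module.finrank k (Submodule.span k (Set.range ![w a, w b])) = 2 := by
        rw [finrank_span_eq_card hab]; simp
      rw [htop, finrank_top, Module.finrank_fin_fun] at h1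
      omega
    obtain ⟨v, -, hv⟩ := SetLike.exists_of_lt hlt
    refine ⟨Fin.snoc ![w a, w b] v, ?_, rfl, rfl⟩
    exact linearIndependent_finSnoc.2 ⟨hab, hv⟩
  obtain ⟨P, hP, hX⟩ := dual_basis m hm
  refine ⟨P 2, ?_, ?_⟩
  · intro h0
    have h := hP 2 2
    simp [h0] at h
  · intro d θ hθ
    refine pure_power m (P 2) P rfl hX (d + 1) θ ?_
    intro n' hn' B hB
    obtain rfl : n' = d := by omega
    have h := hθ B hB
    -- expand
    have hk : ∀ a, θ (lin (w a) * B) = 0 := by
      rw [Fintype.linearIndependent_iff] at he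
      apply he (fun a => θ (lin (w a) * B))
      simp only [Algebra.smul_def]
      rw [← h]
      simp only [theta_lin_mul, map_sum, map_mul, Finset.sum_mul, hw]
      rw [Finset.sum_comm]
      refine Finset.sum_congr rfl fun c _ => Finset.sum_congr rfl fun a _ => ?_
      ring
    exact ⟨by rw [hma]; exact hk a, by rw [hmb]; exact hk b⟩

end LangT1
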