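import Pool.Agent.Lib.MP_c7af3c_ag.T1.H65.Cfg

/-!
# T1, core R5, part 5: the relation space; the case of dimension at most 2 (helper65)
-/

namespace LangT1

open MvPolynomial

variable {k Ω : Type*} [Field k] [Field Ω] [Algebra k Ω]

/-- the space of rational relations -/
noncomputable def RelSp (θ : Fin 2 → Fin 2 → (MvPolynomial (Fin 3) k →ₗ[k] k)) :
    Submodule k (Fin 2 × Fin 3 → k) where
  carrier := {m | ∀ j B, B.IsHomogeneous 3 →
    θ 0 j (lin (fun c => m (1, c)) * B) = θ 1 j (lin (fun c => m (0, c)) * B)}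
  add_mem' := by
    intro m m' h h' j B hB
    have e := h j B hB
    have e' := h' j B hB
    simp only [theta_lin_mul, Pi.add_apply, Fin.sum_univ_three] at e e' ⊢
    linear_combination e + e'
  zero_mem' := by
    intro j B _
    simp [theta_lin_mul]
  smul_mem' := by
    intro a m h j B hB
    have e := h j B hB
    simp only [theta_lin_mul, Pi.smul_apply, smul_eq_mul, Fin.sum_univ_three] at e ⊢
    linear_combination a * e

theorem rel_exp {x : Fin 3 → Ω} {f : Fin 4 → MvPolynomial (Fin 3) k}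
    {κ : Fin 2 → Fin 3 → Ω} {θ : Fin 2 → Fin 2 → (MvPolynomial (Fin 3) k →ₗ[k] k)}
    (h : Cfg x f κ θ) : ∃ (r : ℕ) (e : Fin r → Ω) (w : Fin r → RelSp θ),
      ∀ i c, κ i c = ∑ a, algebraMap k Ω ((w a : Fin 2 × Fin 3 → k) (i, c)) * e a := by
  obtain ⟨r, e, w, he, hw⟩ := exp_lemma (k := k) (fun ic : Fin 2 × Fin 3 => κ ic.1 ic.2)
  have hmem : ∀ a, w a ∈ RelSp θ := by
    intro a j B hB
    rw [Fintype.linearIndependent_iff] at he
    have h2 := he (fun a => θ 0 j (lin (fun c => w a (1, c)) * B) -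
      θ 1 j (lin (fun c => w a (0, c)) * B)) (by
        have h3 := h.rel j B hB
        have k0 : ∀ c, κ 0 c = ∑ a, algebraMap k Ω (w a (0, c)) * e a := fun c => hw (0, c)
        have k1 : ∀ c, κ 1 c = ∑ a, algebraMap k Ω (w a (1, c)) * e a := fun c => hw (1, c)
        simp only [k0, k1] at h3
        rw [← sub_eq_zero] at h3
        rw [← h3]
        simp only [theta_lin_mul, Algebra.smul_def, map_sub, map_sum, map_mul, sub_mul,
          Finset.sum_sub_distrib, Finset.sum_mul]
        congr 1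
        · rw [Finset.sum_comm]
          refine Finset.sum_congr rfl fun c _ => Finset.sum_congr rfl fun a _ => ?_
          ring
        · rw [Finset.sum_comm]
          refine Finset.sum_congr rfl fun c _ => Finset.sum_congr rfl fun a _ => ?_
          ring)
    exact sub_eq_zero.1 (h2 a)
  exact ⟨r, e, fun a => ⟨w a, hmem a⟩, fun i c => hw (i, c)⟩

theorem two_span {V : Type*} [AddCommGroup V] [Module k V] [FiniteDimensional k V]
    (h : Module.finrank k V ≤ 2) : ∃ K K' : V, ∀ v : V, ∃ a b : k, v = a • K + b • K' := by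
  obtain ⟨n, hn⟩ : ∃ n, Module.finrank k V = n := ⟨_, rfl⟩
  rw [hn] at h
  let b : Module.Basis (Fin n) k V := (Module.finBasis k V).reindex (finCongr hn)
  clear_value b
  clear hn
  match n, h, b with
  | 0, _, b => exact ⟨0, 0, fun v => ⟨0, 0, by rw [← b.sum_repr v]; simp⟩⟩
  | 1, _, b => exact ⟨b 0, 0, fun v => ⟨b.repr v 0, 0, by
      conv_lhs => rw [← b.sum_repr v]
      simp⟩⟩
  | 2, _, b => exact ⟨b 0, b 1, fun v => ⟨b.repr v 0, b.repr v 1, by
      conv_lhs => rw [← b.sum_repr v]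
      rw [Fin.sum_univ_two]⟩⟩

/-- `x` is proportional to the cross product -/
theorem cross_prop (x : Fin 3 → Ω) (κ : Fin 2 → Fin 3 → Ω) (orth : ∀ i, ∑ c, κ i c * x c = 0)
    (ind : LinearIndependent Ω κ) : ∃ s : Ω, x = s • ![κ 0 1 * κ 1 2 - κ 0 2 * κ 1 1,
      κ 0 2 * κ 1 0 - κ 0 0 * κ 1 2, κ 0 0 * κ 1 1 - κ 0 1 * κ 1 0] := by
  set y : Fin 3 → Ω := ![κ 0 1 * κ 1 2 - κ 0 2 * κ 1 1,
      κ 0 2 * κ 1 0 - κ 0 0 * κ 1 2, κ 0 0 * κ 1 1 - κ 0 1 * κ 1 0] with hy
  have h0 := orth 0
  have h1 := orth 1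
  rw [Fin.sum_univ_three] at h0 h1
  have hyne : y ≠ 0 := by
    intro h
    have y0 := congrFun h 0
    have y1 := congrFun h 1
    have y2 := congrFun h 2
    simp only [hy, Matrix.cons_val_zero, Matrix.cons_val_one, Matrix.cons_val_two,
      Matrix.tail_cons, Matrix.head_cons, Pi.zero_apply] at y0 y1 y2
    rw [Fintype.linearIndependent_iff] at ind
    -- some coordinate of κ 0 or κ 1 is nonzero
    by_cases hz : κ 0 = 0
    · have h2 := ind ![1, 0] (by rw [Fin.sum_univ_two]; simp [hz]) 0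
      simp at h2
    · obtain ⟨c, hc⟩ := Function.ne_iff.1 hz
      have hc' : κ 0 c ≠ 0 := hc
      have h2 := ind ![κ 1 c, -κ 0 c] (by
        rw [Fin.sum_univ_two]
        funext j
        simp only [Matrix.cons_val_zero, Matrix.cons_val_one, Pi.add_apply, Pi.smul_apply,
          smul_eq_mul, Pi.zero_apply]
        fin_cases c <;> fin_cases j <;> simp <;>
        first
          | ring1
          | linear_combination y0
          | linear_combination y1
          | linear_combination y2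
          | linear_combination -y0
          | linear_combination -y1
          | linear_combination -y2) 1
      simp at h2
      exact hc' h2
  have p12 : y 1 * x 2 = y 2 * x 1 := by
    simp only [hy, Matrix.cons_val_zero, Matrix.cons_val_one, Matrix.cons_val_two,
      Matrix.tail_cons, Matrix.head_cons]
    linear_combination κ 1 0 * h0 - κ 0 0 * h1
  have p20 : y 2 * x 0 = y 0 * x 2 := by
    simp only [hy, Matrix.cons_val_zero, Matrix.cons_val_one, Matrix.cons_val_two,
      Matrix.tail_cons, Matrix.head_cons]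
    linear_combination κ 1 1 * h0 - κ 0 1 * h1
  have p01 : y 0 * x 1 = y 1 * x 0 := by
    simp only [hy, Matrix.cons_val_zero, Matrix.cons_val_one, Matrix.cons_val_two,
      Matrix.tail_cons, Matrix.head_cons]
    linear_combination κ 1 2 * h0 - κ 0 2 * h1
  obtain ⟨c, hc⟩ := Function.ne_iff.1 hyne
  have hc' : y c ≠ 0 := hc
  refine ⟨x c / y c, ?_⟩
  funext j
  rw [Pi.smul_apply, smul_eq_mul, div_mul_eq_mul_div, eq_div_iff hc']
  fin_cases c <;> fin_cases j <;>
  first
    | ring1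
    | (simp only [Fin.zero_eta, Fin.mk_one, Fin.reduceFinMk]; linear_combination p01)
    | (simp only [Fin.zero_eta, Fin.mk_one, Fin.reduceFinMk]; linear_combination -p01)
    | (simp only [Fin.zero_eta, Fin.mk_one, Fin.reduceFinMk]; linear_combination p12)
    | (simp only [Fin.zero_eta, Fin.mk_one, Fin.reduceFinMk]; linear_combination -p12)
    | (simp only [Fin.zero_eta, Fin.mk_one, Fin.reduceFinMk]; linear_combination p20)
    | (simp only [Fin.zero_eta, Fin.mk_one, Fin.reduceFinMk]; linear_combination -p20)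

/-- no quadratic parametrisation -/
theorem no_conic (x : Fin 3 → Ω) (hx : LinearIndependent k x)
    (NC : ∀ y : Fin 3 → Fin 3 → k, LinearIndependent k y → ∀ s t : Ω,
      x ≠ fun c => s * (algebraMap k Ω (y 0 c) + t * algebraMap k Ω (y 1 c) +
        t ^ 2 * algebraMap k Ω (y 2 c)))
    (y : Fin 3 → Fin 3 → k) (a b : Ω)
    (h : x = fun c => a ^ 2 * algebraMap k Ω (y 0 c) + a * b * algebraMap k Ω (y 1 c) +
        b ^ 2 * algebraMap k Ω (y 2 c)) : False := by
  have hdep : ∀ z : Fin 3 → Fin 3 → k, ¬ LinearIndependent k z → ∀ s : Fin 3 → Ω,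
      x ≠ fun c => ∑ i, s i * algebraMap k Ω (z i c) := by
    intro z hz s hs
    have hM : (Matrix.of z).det = 0 := by
      by_contra hne
      apply hz
      have : IsUnit (Matrix.of z) := (Matrix.isUnit_iff_isUnit_det _).2 (isUnit_iff_ne_zero.2 hne)
      exact Matrix.linearIndependent_rows_iff_isUnit.2 this
    obtain ⟨m, hm, hm0⟩ := Matrix.exists_mulVec_eq_zero_iff.2 hM
    apply hm
    apply rational_zero x hx
    have e : ∀ i, ∑ c, z i c * m c = 0 := fun i => congrFun hm0 i
    calc ∑ c, algebraMap k Ω (m c) * x c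
        = ∑ i, s i * algebraMap k Ω (∑ c, z i c * m c) := by
          rw [hs]
          simp only [Finset.mul_sum, map_sum, map_mul]
          rw [Finset.sum_comm]
          refine Finset.sum_congr rfl fun c _ => Finset.sum_congr rfl fun a _ => ?_
          ring
      _ = 0 := by simp [e]
  by_cases ha : a = 0
  · refine hdep ![0, 0, y 2] ?_ ![0, 0, b ^ 2] ?_
    · intro hi
      exact hi.ne_zero 0 rfl
    · rw [h, ha]
      funext c
      simp [Fin.sum_univ_three]
  · by_cases hy : LinearIndependent k y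
    · refine NC y hy (a ^ 2) (b / a) ?_
      rw [h]
      funext c
      field_simp
    · refine hdep y hy ![a ^ 2, a * b, b ^ 2] ?_
      rw [h]
      funext c
      simp [Fin.sum_univ_three]

/-- the case `dim ≤ 2` -/
theorem small_case (x : Fin 3 → Ω) (hx : LinearIndependent k x)
    (NC : ∀ y : Fin 3 → Fin 3 → k, LinearIndependent k y → ∀ s t : Ω,
      x ≠ fun c => s * (algebraMap k Ω (y 0 c) + t * algebraMap k Ω (y 1 c) +
        t ^ 2 * algebraMap k Ω (y 2 c)))
    (f : Fin 4 → MvPolynomial (Fin 3) k) (κ : Fin 2 → Fin 3 → Ω)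
    (θ : Fin 2 → Fin 2 → (MvPolynomial (Fin 3) k →ₗ[k] k)) (h : Cfg x f κ θ)
    (hd : Module.finrank k (RelSp θ) ≤ 2) : False := by
  obtain ⟨r, e, w, hw⟩ := rel_exp h
  obtain ⟨K, K', hK⟩ := two_span hd
  choose a b hab using fun i => hK (w i)
  set α : Ω := ∑ i, algebraMap k Ω (a i) * e i with hα
  set β : Ω := ∑ i, algebraMap k Ω (b i) * e i with hβ
  let N : Fin 2 → Fin 3 → k := fun i c => (K : Fin 2 × Fin 3 → k) (i, c)
  let N' : Fin 2 → Fin 3 → k := fun i c => (K' : Fin 2 × Fin 3 → k) (i, c)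
  have hκ : ∀ i c, κ i c = α * algebraMap k Ω (N i c) + β * algebraMap k Ω (N' i c) := by
    intro i c
    rw [hw, hα, hβ, Finset.sum_mul, Finset.sum_mul, ← Finset.sum_add_distrib]
    refine Finset.sum_congr rfl fun j _ => ?_
    have e2 : (w j : Fin 2 × Fin 3 → k) (i, c) = a j * N i c + b j * N' i c := by
      rw [hab j]; rfl
    rw [e2, map_add, map_mul, map_mul]
    ring
  obtain ⟨s, hs⟩ := cross_prop x κ h.orth h.ind
  have hsne : s ≠ 0 := by
    rintro rfl
    rw [zero_smul] at hs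
    exact hx.ne_zero 0 (congrFun hs 0)
  -- y0 = N0 x N1, y1 = N0 x N'1 + N'0 x N1, y2 = N'0 x N'1
  obtain ⟨y, hy⟩ : ∃ y : Fin 3 → Fin 3 → k, (s⁻¹ • x) = fun c =>
      α ^ 2 * algebraMap k Ω (y 0 c) + α * β * algebraMap k Ω (y 1 c) +
        β ^ 2 * algebraMap k Ω (y 2 c) := by
    refine ⟨![![N 0 1 * N 1 2 - N 0 2 * N 1 1, N 0 2 * N 1 0 - N 0 0 * N 1 2,
        N 0 0 * N 1 1 - N 0 1 * N 1 0],
      ![N 0 1 * N' 1 2 - N 0 2 * N' 1 1 + (N' 0 1 * N 1 2 - N' 0 2 * N 1 1),
        N 0 2 * N' 1 0 - N 0 0 * N' 1 2 + (N' 0 2 * N 1 0 - N' 0 0 * N 1 2),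
        N 0 0 * N' 1 1 - N 0 1 * N' 1 0 + (N' 0 0 * N 1 1 - N' 0 1 * N 1 0)],
      ![N' 0 1 * N' 1 2 - N' 0 2 * N' 1 1, N' 0 2 * N' 1 0 - N' 0 0 * N' 1 2,
        N' 0 0 * N' 1 1 - N' 0 1 * N' 1 0]], ?_⟩
    rw [hs, smul_smul, inv_mul_cancel₀ hsne, one_smul]
    funext c
    fin_cases c <;>
    simp [hκ, map_sub, map_add, map_mul] <;> ring
  have hx' : LinearIndependent k (s⁻¹ • x) := by
    have h0 : s⁻¹ ≠ 0 := inv_ne_zero hsne
    rw [Fintype.linearIndependent_iff] at hx ⊢
    intro g hg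
    refine hx g ?_
    have : s⁻¹ * ∑ i, g i • x i = 0 := by
      rw [← hg, Finset.mul_sum]
      refine Finset.sum_congr rfl fun i _ => ?_
      rw [Pi.smul_apply, smul_eq_mul, mul_smul_comm]
    exact (mul_eq_zero.1 this).resolve_left h0
  refine no_conic (s⁻¹ • x) hx' ?_ y α β hy
  intro z hz s' t heq
  apply NC z hz (s * s') t
  have h2 : x = s • (s⁻¹ • x) := by rw [smul_smul, mul_inv_cancel₀ hsne, one_smul]
  rw [h2, heq]
  funext c
  simp only [Pi.smul_apply, smul_eq_mul]
  ring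

end LangT1
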